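import Pool.Agent.Lib.MP_19b511_co.Hk.Fall

set_option autoImplicit false

namespace Pool.Agent.Results.MP_19b511_co.HookPositive

open Pool.Agent.Lib.MP_19b511_co

/-- Q1 holds when `μ` is a hook (second row of length at most one), for every `λ`: the Hall
product of `α^n J_μ^(1/α)` with `s_λ` has natural coefficients in the falling factorial basis. -/
theorem result (n : ℕ) (μ lam : YoungDiagram) (hn : 1 ≤ n) (hμ : μ.card = n) (hl : lam.card = n)
    (hook : μ.rowLen 1 ≤ 1) :
    ∃ b : ℕ → ℕ, ∀ α : ℝ, 0 < α → (∃! P : Sym, IsJackP α⁻¹ μ P) ∧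
      ∀ P : Sym, IsJackP α⁻¹ μ P →
        form 1 (α ^ n • (hookProd α⁻¹ μ • P)) (schur lam) =
          ∑ k ∈ Finset.Icc 1 n, (b (n - k) : ℝ) * (descPochhammer ℝ k).eval α := by
  subst hμ
  exact Hk.hook_positive μ lam hn hl hook

end Pool.Agent.Results.MP_19b511_co.HookPositive
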