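import Mathlib
import Pool.Agent.Lib.MP_19b511_co.Jack
import Pool.Agent.Lib.MP_19b511_co.Laguerre

set_option autoImplicit false

namespace Pool.Agent.Results.MP_19b511_co.NonRealZero

open Pool.Agent.Lib.MP_19b511_co

/-- Q2 fails for `μ = (34, 17)`, `λ = (17, 17, 17)`, `n = 51`: the coefficients `b` of the
expansion of the Hall product of `α^n J_μ^(1/α)` with `s_λ` in falling factorials give a nonzero
polynomial `B` with a non-real zero. -/
theorem result : ∃ (n : ℕ) (μ lam : YoungDiagram) (b : ℕ → ℚ),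
    μ.rowLens = [34, 17] ∧ lam.rowLens = [17, 17, 17] ∧ μ.card = n ∧ lam.card = n ∧
    (∀ α : ℝ, 0 < α → (∃! P : Sym, IsJackP α⁻¹ μ P) ∧
      ∀ P : Sym, IsJackP α⁻¹ μ P →
        form 1 (α ^ n • (hookProd α⁻¹ μ • P)) (schur lam) =
          ∑ k ∈ Finset.Icc 1 n, (b (n - k) : ℝ) * (descPochhammer ℝ k).eval α) ∧
    b n = 0 ∧ (∃ j < n, b j ≠ 0) ∧
    ∃ z : ℂ, z.im ≠ 0 ∧ ∑ j ∈ Finset.range (n + 1), (b j : ℂ) * z ^ (n - j) = 0 := by
  refine ⟨51, mu, lam, fun j => (bl.getD (51 - j) 0 : ℚ), mu_rowLens, lam_rowLens, mu_card,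
    lam_card, fun α hα => ⟨⟨_, jack_mu hα, fun Q hQ => ?_⟩, fun P hP => ?_⟩, ?_, ⟨0, by omega, ?_⟩, ?_⟩
  · exact isJackP_unique (inv_pos.mpr hα) mu _ _ hQ (jack_mu hα)
  · rw [jack_value hα P hP, Finset.range_eq_Ico, Finset.sum_eq_sum_Ico_succ_bot (by omega)]
    have h0 : bl.getD 0 0 = 0 := rfl
    have h1 : Finset.Ico (0 + 1) 52 = Finset.Icc 1 51 := by
      ext k
      simp only [Finset.mem_Ico, Finset.mem_Icc]
      omega
    rw [h0, h1, Nat.cast_zero, zero_mul, zero_add]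
    apply Finset.sum_congr rfl
    intro k hk
    have hk2 : 51 - (51 - k) = k := by
      have := (Finset.mem_Icc.mp hk).2
      omega
    simp only [hk2, Rat.cast_natCast]
  · have h0 : bl.getD (51 - 51) 0 = 0 := rfl
    simp only [h0, Nat.cast_zero]
  · have h0 : bl.getD (51 - 0) 0 = 53698601307471872 := rfl
    simp only [h0]
    norm_num
  · obtain ⟨z, h1, h2⟩ := exists_nonreal
    refine ⟨z, h1, ?_⟩
    rw [← h2, ← Finset.sum_range_reflect]
    apply Finset.sum_congr rfl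
    intro k hk
    have hk2 : 51 - (51 + 1 - 1 - k) = k := by
      have := Finset.mem_range.mp hk
      omega
    simp only [hk2, Rat.cast_natCast]

end Pool.Agent.Results.MP_19b511_co.NonRealZero
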